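import Pool.Agent.H.MP_1e4d5b_gt.Main

namespace Pool.Agent.Results.MP_1e4d5b_gt.LasnevLevels

open Filter Topology Pool.Agent.H.MP_1e4d5b_gt

universe u v

/-- Let `X` be a Lašnev space, that is, a Hausdorff space which is the image of a metrizable
space `M` under a closed continuous surjection.  If one level `A_m(X)` with `m ≥ 2` (for example
`m = 4`) of the free abelian topological group is csf-countable, then every level `A_n(X)` is
csf-countable. -/
theorem result {X : Type u} [TopologicalSpace X] [T2Space X] {M : Type v} [TopologicalSpace M]
    [TopologicalSpace.MetrizableSpace M] (f : M → X) (hf : Continuous f) (hc : IsClosedMap f)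
    (hs : Function.Surjective f) (m : ℕ) (hm : 2 ≤ m) (h : CsfCountable (level X m)) (n : ℕ) :
    CsfCountable (level X n) :=
  main hf hc hs hm h n

end Pool.Agent.Results.MP_1e4d5b_gt.LasnevLevels
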